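import Pool.Agent.MP_c69980_ag.H43.Spec2

/-!
Holomorphic discs lift to the universal cover.
-/

set_option autoImplicit false

namespace Pool.Agent.MP_c69980_ag.H43

open Filter Topology Metric

/-- An entire map is continuously differentiable. -/
lemma lft_c1 {E F : Type} [NormedAddCommGroup E] [NormedSpace ℂ E] [NormedAddCommGroup F]
    [NormedSpace ℂ F] {f : E → F} (hf : Differentiable ℂ f) : ContDiff ℂ 1 f := by
  refine contDiff_one_iff_fderiv.2 ⟨hf, continuous_iff_continuousAt.2 fun p => ?_⟩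
  refine Metric.continuousAt_iff.2 fun ε hε => ?_
  obtain ⟨δ, hδ, h⟩ := Metric.eventually_nhds_iff.1
    ((hf p).hasFDerivAt.isLittleO.def (c := ε / 4) (by positivity))
  refine ⟨δ / 2, by positivity, fun x hx => ?_⟩
  rcases eq_or_ne x p with rfl | hne
  · simpa using hε
  have hr : 0 < dist x p := dist_pos.2 hne
  have hg : ∀ y, HasFDerivAt (fun y => f y - f p - fderiv ℂ f p (y - p))
      (fderiv ℂ f y - fderiv ℂ f p) y := fun y => by
    have := (fderiv ℂ f p).hasFDerivAt.comp y ((hasFDerivAt_id y).sub_const p)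
    exact ((hf y).hasFDerivAt.sub_const (f p)).sub (by simpa [Function.comp_def] using this)
  have key := Complex.norm_fderiv_le_div_of_mapsTo_ball (c := x) (R₁ := dist x p)
    (R₂ := 3 * (ε / 4) * dist x p) (fun y _ => (hg y).differentiableAt.differentiableWithinAt)
    (fun y hy => by
      have h1 : dist y p ≤ 2 * dist x p := by linarith [dist_triangle y x p, mem_ball.1 hy]
      have h2 := h (y := y) (by linarith)
      have h3 := h (y := x) (by linarith)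
      rw [← dist_eq_norm y p] at h2
      rw [← dist_eq_norm x p] at h3
      rw [mem_closedBall, dist_eq_norm]
      refine (norm_sub_le _ _).trans ?_
      nlinarith) hr
  rw [(hg x).fderiv, mul_div_cancel_right₀ _ hr.ne'] at key
  rw [dist_eq_norm]
  linarith

variable {t a M : ℕ} {w : Fin M → Option (Fin t)} {Θ : Pt t a → Fin M → ℂ}

/-- Affine coordinates. -/
noncomputable def lftR (b : Fin M) (y : Fin M → ℂ) : Fin M → ℂ := fun c => y c / y b

lemma lft_smul (b : Fin M) (y : Fin M → ℂ) {l : ℂ} (hl : l ≠ 0) : lftR b (l • y) = lftR b y :=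
  funext fun _ => mul_div_mul_left _ _ hl

lemma lft_ne (g : GA w Θ) {p : Pt t a} {l : ℂ} {y : Fin M → ℂ} (h : Θ p = l • y) : l ≠ 0 := by
  rintro rfl
  obtain ⟨b, -, hb⟩ := g.blk p none
  exact hb (by simp [h])

lemma lft_rel (g : GA w Θ) {p q : Pt t a} {y : Fin M → ℂ} (hq : ∃ l : ℂ, Θ q = l • y) :
    (∃ l : ℂ, Θ p = l • y) ↔ p - q ∈ Lam Θ := by
  obtain ⟨l, hl⟩ := hq
  rw [← g.par]
  constructor
  · rintro ⟨m, hm⟩
    exact ⟨m / l, by rw [hm, hl, smul_smul, div_mul_cancel₀ _ (lft_ne g hl)]⟩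
  · rintro ⟨m, hm⟩
    exact ⟨m * l, by rw [hm, hl, smul_smul]⟩

/-- A local left inverse of the affine coordinates. -/
lemma lft_inv (g : GA w Θ) {p : Pt t a} {b : Fin M} (hb : Θ p b ≠ 0) :
    ∃ ψ : (Fin M → ℂ) → Pt t a, ContDiffAt ℂ 1 ψ (lftR b (Θ p)) ∧
      ∀ᶠ q in 𝓝 p, ψ (lftR b (Θ q)) = q := by
  have c1 := contDiff_pi.1 (lft_c1 g.hol)
  have hf : ContDiffAt ℂ 1 (fun q => lftR b (Θ q)) p :=
    contDiffAt_pi.2 fun c => (c1 c).contDiffAt.div (c1 b).contDiffAt hb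
  have hd := (hf.differentiableAt one_ne_zero).hasFDerivAt
  have hi : LinearMap.ker (fderiv ℂ (fun q => lftR b (Θ q)) p : Pt t a →ₗ[ℂ] Fin M → ℂ) = ⊥ := by
    refine LinearMap.ker_eq_bot'.2 fun v hv => g.imm p v fun c b' hb' => ?_
    have e : (fun q => Θ q c / Θ q b') =ᶠ[𝓝 p]
        (fun y : Fin M → ℂ => y c / y b') ∘ fun q => lftR b (Θ q) := by
      filter_upwards [(c1 b).continuous.continuousAt.eventually_ne hb] with q hq
      exact (div_div_div_cancel_right₀ hq _ _).symm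
    have d : DifferentiableAt ℂ (fun y : Fin M → ℂ => y c / y b') (lftR b (Θ p)) :=
      ((contDiffAt_apply ℂ ℂ c _ (n := 1)).div (contDiffAt_apply ℂ ℂ b' _)
        (div_ne_zero hb' hb)).differentiableAt one_ne_zero
    rw [e.fderiv_eq, (d.hasFDerivAt.comp p hd).fderiv, ContinuousLinearMap.comp_apply,
      show fderiv ℂ (fun q => lftR b (Θ q)) p v = 0 from hv, map_zero]
  obtain ⟨π, hπ⟩ := LinearMap.exists_leftInverse_of_injective _ hi
  have hF : ContDiffAt ℂ 1 (fun q => π.toContinuousLinearMap (lftR b (Θ q))) p :=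
    π.toContinuousLinearMap.contDiff.contDiffAt.comp p hf
  have hF' : HasFDerivAt (fun q => π.toContinuousLinearMap (lftR b (Θ q)))
      (ContinuousLinearEquiv.refl ℂ (Pt t a) : Pt t a →L[ℂ] Pt t a) p := by
    refine (π.toContinuousLinearMap.hasFDerivAt.comp p hd).congr_fderiv ?_
    exact ContinuousLinearMap.ext fun v => LinearMap.congr_fun hπ v
  exact ⟨fun y => hF.localInverse hF' one_ne_zero (π.toContinuousLinearMap y),
    (hF.to_localInverse hF' one_ne_zero).comp _ π.toContinuousLinearMap.contDiff.contDiffAt,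
    (hF.hasStrictFDerivAt' hF' one_ne_zero).eventually_left_inverse⟩

/-- Local lifts. -/
lemma lft_loc (g : GA w Θ) (hP : Prp w Θ) {Y f : ℂ → Fin M → ℂ} {s₀ : ℂ}
    (h1 : ∀ᶠ s in 𝓝 s₀, ∃ (p : Pt t a) (l : ℂ), Θ p = l • Y s) (hf : AnalyticAt ℂ f s₀)
    (h2 : ∀ᶠ s in 𝓝 s₀, f s ≠ 0 ∧ ∃ l : ℂ, f s = l • Y s) :
    ∃ q : ℂ → Pt t a, ∀ᶠ s in 𝓝 s₀, DifferentiableAt ℂ q s ∧ ∃ l : ℂ, Θ (q s) = l • Y s := by
  have h3 : ∀ᶠ s in 𝓝 s₀, ∃ (p : Pt t a) (m : ℂ), Θ p = m • f s ∧ ∃ l : ℂ, Θ p = l • Y s := by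
    filter_upwards [h1, h2] with s ⟨p, l, hp⟩ ⟨h0, l', hl⟩
    have : l' ≠ 0 := by
      rintro rfl
      exact h0 (by simpa using hl)
    exact ⟨p, l / l', by rw [hp, hl, smul_smul, div_mul_cancel₀ _ this], l, hp⟩
  obtain ⟨p₀, m₀, e₀, -⟩ := h3.self_of_nhds
  obtain ⟨b, -, hb⟩ := g.blk p₀ none
  obtain ⟨ψ, hψ, hl⟩ := lft_inv g hb
  have fb : f s₀ b ≠ 0 := fun e => hb (by simp [e₀, e])
  have c1 := contDiffAt_pi.1 (hf.contDiffAt (n := 1))
  have hu : ContDiffAt ℂ 1 (fun s => lftR b (f s)) s₀ :=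
    contDiffAt_pi.2 fun c => (c1 c).div (c1 b) fb
  have u0 : lftR b (Θ p₀) = lftR b (f s₀) := by rw [e₀, lft_smul _ _ (lft_ne g e₀)]
  rw [u0] at hψ
  obtain ⟨ε, hε, hl⟩ := Metric.eventually_nhds_iff.1 hl
  obtain ⟨δ, hδ, hp⟩ := hP.2 p₀ b hb ε hε
  refine ⟨fun s => ψ (lftR b (f s)), ?_⟩
  filter_upwards [(hψ.comp s₀ hu).eventually (by simp), h3,
    (c1 b).continuousAt.eventually_ne fb, hu.continuousAt.eventually (ball_mem_nhds _ hδ)]
    with s d ⟨p, m, e, r⟩ sb sd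
  refine ⟨d.differentiableAt one_ne_zero, ?_⟩
  have u1 : lftR b (Θ p) = lftR b (f s) := by rw [e, lft_smul _ _ (lft_ne g e)]
  obtain ⟨x, hx, hd⟩ := hp p (by rw [e]; exact mul_ne_zero (lft_ne g e) sb) fun c => by
    rw [← u1, ← u0, dist_eq_norm] at sd
    exact (norm_le_pi_norm (lftR b (Θ p) - lftR b (Θ p₀)) c).trans_lt sd
  have hx' : p - x - p ∈ Lam Θ := by
    simpa using g.lsub 0 ⟨1, (one_smul _ _).symm⟩ x hx
  obtain ⟨n, hn⟩ := (g.par _ _).2 hx'
  rw [← u1, ← lft_smul b _ (lft_ne g hn), ← hn, hl (by rwa [dist_eq_norm])]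
  exact (lft_rel g r).2 hx'

/-- Two lifts have the same derivative. -/
lemma lft_deriv (g : GA w Θ) (hD : Disc Θ) {Y : ℂ → Fin M → ℂ} {u v : ℂ → Pt t a} {s₀ : ℂ}
    (hu : ∀ᶠ s in 𝓝 s₀, DifferentiableAt ℂ u s ∧ ∃ l : ℂ, Θ (u s) = l • Y s)
    (hv : ∀ᶠ s in 𝓝 s₀, DifferentiableAt ℂ v s ∧ ∃ l : ℂ, Θ (v s) = l • Y s) :
    deriv u s₀ = deriv v s₀ := by
  obtain ⟨ε, hε, h⟩ := hD
  have h1 : ∀ᶠ s in 𝓝 s₀, u s - v s ∈ Lam Θ := by
    filter_upwards [hu, hv] with s a b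
    exact (lft_rel g b.2).1 a.2
  have h2 : u =ᶠ[𝓝 s₀] fun s => v s + (u s₀ - v s₀) := by
    filter_upwards [h1, (hu.self_of_nhds.1.continuousAt.sub
      hv.self_of_nhds.1.continuousAt).eventually (ball_mem_nhds _ hε)] with s a b
    have := h _ (g.lsub _ a _ h1.self_of_nhds) (by rwa [dist_eq_norm] at b)
    rw [← sub_eq_zero.1 this, add_sub_cancel]
  rw [h2.deriv_eq, deriv_add_const]

theorem sLft : SLft := by
  intro t a M w Θ g hD hP R Y p₀ hR h1 h2 h3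
  have hq : ∀ s₀ : ℂ, ∃ q : ℂ → Pt t a, s₀ ∈ ball (0 : ℂ) R →
      ∀ᶠ s in 𝓝 s₀, DifferentiableAt ℂ q s ∧ ∃ l : ℂ, Θ (q s) = l • Y s := fun s₀ => by
    by_cases h : s₀ ∈ ball (0 : ℂ) R
    · obtain ⟨f, hf, hf'⟩ := h2 s₀ h
      obtain ⟨q, hq⟩ := lft_loc g hP
        (Filter.mem_of_superset (isOpen_ball.mem_nhds h) h1) hf hf'
      exact ⟨q, fun _ => hq⟩
    · exact ⟨0, fun h' => absurd h' h⟩
  choose q hq using hq
  have hg : ∀ s₀ ∈ ball (0 : ℂ) R, (fun s => deriv (q s) s) =ᶠ[𝓝 s₀] deriv (q s₀) := by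
    intro s₀ h
    filter_upwards [isOpen_ball.mem_nhds h, (hq s₀ h).eventually_nhds] with s a b
    exact lft_deriv g hD (hq s a) b
  have hd : DifferentiableOn ℂ (fun s => deriv (q s) s) (ball 0 R) := fun s₀ h =>
    ((Complex.analyticAt_iff_eventually_differentiableAt.2 ((hq s₀ h).mono fun _ => And.left)).deriv
      |>.differentiableAt.congr_of_eventuallyEq (hg s₀ h)).differentiableWithinAt
  obtain ⟨p, p0, hp⟩ := hd.isExactOn_ball.with_val_at 0 p₀
  refine ⟨p, fun s h => (hp s h).differentiableAt.differentiableWithinAt, p0, fun s h => ?_⟩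
  refine ((convex_ball (0 : ℂ) R).isPreconnected.induction₂
    (fun s s' => (∃ l : ℂ, Θ (p s) = l • Y s) ↔ ∃ l : ℂ, Θ (p s') = l • Y s') (fun s₀ h₀ => ?_)
    (fun _ _ _ _ _ _ => Iff.trans) (fun _ _ _ _ => Iff.symm) (mem_ball_self hR) h).1 (p0 ▸ h3)
  obtain ⟨r, hr, hb⟩ := Metric.eventually_nhds_iff_ball.1
    (((hq s₀ h₀).and (hg s₀ h₀)).and (isOpen_ball.mem_nhds h₀))
  obtain ⟨k, hk⟩ := isOpen_ball.exists_eq_add_of_deriv_eq (convex_ball s₀ r).isPreconnected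
    (f := p) (g := q s₀) (fun s hs => (hp s (hb s hs).2).differentiableAt.differentiableWithinAt)
    (fun s hs => (hb s hs).1.1.1.differentiableWithinAt)
    fun s hs => (hp s (hb s hs).2).deriv.trans (hb s hs).1.2
  filter_upwards [mem_nhdsWithin_of_mem_nhds (ball_mem_nhds s₀ hr)] with s hs
  rw [lft_rel g (hb s hs).1.1.2, lft_rel g (hb s₀ (mem_ball_self hr)).1.1.2, hk hs,
    hk (mem_ball_self hr), add_sub_cancel_left, add_sub_cancel_left]

end Pool.Agent.MP_c69980_ag.H43
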